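import Pool.Agent.W295.NL.Stm

/-! # Project NL: the quotient by a central translation of prime order (S_QU) -/

set_option autoImplicit false

namespace Pool.Agent.W923.NL.QU
open Pool.Agent.W295.NL

theorem main : S_QU := by
  intro Q _ L hL p ζ hp hc hne hzp
  classical
  haveI : Fact p.Prime := ⟨hp⟩
  have hck : ∀ (k : ℕ) (u v : Q),
      L (ζ^[k] u) v = ζ^[k] (L u v) ∧ L u (ζ^[k] v) = ζ^[k] (L u v) := by
    intro k
    induction k with
    | zero => intro u v; exact ⟨rfl, rfl⟩
    | succ k ih =>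
      intro u v
      rw [Function.iterate_succ_apply', Function.iterate_succ_apply',
        Function.iterate_succ_apply']
      exact ⟨by rw [(hc _ _).1, (ih u v).1], by rw [(hc _ _).2, (ih u v).2]⟩
  have hper : ∀ x, Function.IsPeriodicPt ζ p x := fun x => by
    show ζ^[p] x = x
    rw [hzp]
    rfl
  have hmod : ∀ m x, ζ^[m % p] x = ζ^[m] x := fun m x => (hper x).iterate_mod_apply m
  have hfree1 : ∀ x, ζ x ≠ x := by
    intro x hx
    refine hne (funext fun y => ?_)
    obtain ⟨v, hv⟩ := (hL.1 x).2 y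
    show ζ y = y
    rw [← hv, ← (hc x v).1, hx]
  have hfree : ∀ k x, ζ^[k] x = x → p ∣ k := by
    intro k x hx
    by_contra h
    have hcop : Nat.gcd k p = 1 := ((Nat.Prime.coprime_iff_not_dvd hp).2 h).symm
    have h1 : Function.IsPeriodicPt ζ k x := hx
    have h2 := h1.gcd (hper x)
    rw [hcop] at h2
    exact hfree1 x h2
  let T : ZMod p → Q → Q := fun k x => ζ^[k.val] x
  have hTadd : ∀ k l x, T (k + l) x = T k (T l x) := by
    intro k l x
    show ζ^[(k + l).val] x = ζ^[k.val] (ζ^[l.val] x)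
    rw [ZMod.val_add, hmod, Function.iterate_add_apply]
  have hT0 : ∀ x, T 0 x = x := by
    intro x
    show ζ^[(0 : ZMod p).val] x = x
    rw [ZMod.val_zero]
    rfl
  have hTfree : ∀ k l x, T k x = T l x → k = l := by
    intro k l x h
    have h1 : T (k - l) (T l x) = T l x := by
      rw [← hTadd, sub_add_cancel, h]
    have h2 := hfree _ _ h1
    have h3 : (k - l).val = 0 := Nat.eq_zero_of_dvd_of_lt h2 (ZMod.val_lt _)
    rw [ZMod.val_eq_zero] at h3
    exact sub_eq_zero.1 h3
  have heq : Equivalence (fun x y : Q => ∃ k : ZMod p, y = T k x) := by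
    refine ⟨fun x => ⟨0, (hT0 x).symm⟩, ?_, ?_⟩
    · rintro x y ⟨k, rfl⟩
      exact ⟨-k, by rw [← hTadd, neg_add_cancel, hT0]⟩
    · rintro x y z ⟨k, rfl⟩ ⟨l, rfl⟩
      exact ⟨l + k, by rw [hTadd]⟩
  let st : Setoid Q := ⟨_, heq⟩
  let s : Quotient st → Q := Quotient.out
  let g : Quotient st × ZMod p → Q := fun ak => T ak.2 (s ak.1)
  have hcls : ∀ (a : Quotient st) (k : ZMod p), (Quotient.mk st (T k (s a))) = a := by
    intro a k
    have h1 : Quotient.mk st (s a) = Quotient.mk st (T k (s a)) :=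
      Quotient.sound (show st.r (s a) (T k (s a)) from ⟨k, rfl⟩)
    exact h1.symm.trans (Quotient.out_eq a)
  have hg : Function.Bijective g := by
    constructor
    · rintro ⟨a, k⟩ ⟨b, l⟩ h
      have h0 : T k (s a) = T l (s b) := h
      have h1 : a = b := by
        calc a = Quotient.mk st (T k (s a)) := (hcls a k).symm
          _ = Quotient.mk st (T l (s b)) := by rw [h0]
          _ = b := hcls b l
      subst h1
      rw [hTfree k l _ h0]
    · intro x
      have h1 : st.r (s (Quotient.mk st x)) x :=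
        Quotient.exact (Quotient.out_eq (Quotient.mk st x))
      obtain ⟨k, hk⟩ := h1
      exact ⟨(Quotient.mk st x, k), hk.symm⟩
  obtain ⟨e, he, hge⟩ : ∃ e : Q ≃ Quotient st × ZMod p, (∀ a k, e (T k (s a)) = (a, k)) ∧
      ∀ x, T (e x).2 (s (e x).1) = x :=
    ⟨(Equiv.ofBijective g hg).symm, fun a k => (Equiv.ofBijective g hg).symm_apply_apply (a, k),
      fun x => (Equiv.ofBijective g hg).apply_symm_apply x⟩
  have hTL : ∀ k l u v, L (T k u) (T l v) = T (k + l) (L u v) := by
    intro k l u v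
    show L (ζ^[k.val] u) (ζ^[l.val] v) = T (k + l) (L u v)
    rw [(hck _ _ _).1, (hck _ _ _).2, hTadd]
  have hmain : ∀ a b i j, e (L (T i (s a)) (T j (s b))) =
      ((e (L (s a) (s b))).1, i + j + (e (L (s a) (s b))).2) := by
    intro a b i j
    rw [hTL]
    have h := hge (L (s a) (s b))
    have h2 : T (i + j) (L (s a) (s b)) =
        T (i + j + (e (L (s a) (s b))).2) (s (e (L (s a) (s b))).1) := by
      rw [hTadd (i + j), h]
    rw [h2]
    exact he _ _
  have hes : ∀ c, e (s c) = (c, 0) := by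
    intro c
    have h := he c 0
    rw [hT0] at h
    exact h
  refine ⟨Quotient st, fun a b => (e (L (s a) (s b))).1, fun a b => (e (L (s a) (s b))).2, e,
    inferInstance, ⟨fun a => ?_, fun b => ?_⟩, ?_, ?_⟩
  · rw [← Finite.surjective_iff_bijective]
    intro c
    obtain ⟨y, hy⟩ := (hL.1 (s a)).2 (s c)
    refine ⟨(e y).1, ?_⟩
    have h := hmain a (e y).1 0 (e y).2
    rw [hT0, hge, hy, hes] at h
    exact (congrArg Prod.fst h).symm
  · rw [← Finite.surjective_iff_bijective]
    intro c
    obtain ⟨y, hy⟩ := (hL.2 (s b)).2 (s c)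
    have hy' : L y (s b) = s c := hy
    refine ⟨(e y).1, ?_⟩
    have h := hmain (e y).1 b (e y).2 0
    rw [hT0, hge, hy', hes] at h
    exact (congrArg Prod.fst h).symm
  · intro x y
    have h := hmain (e x).1 (e y).1 (e x).2 (e y).2
    rw [hge, hge] at h
    exact h
  · intro x
    have h1 : T ((e x).2 + 1) (s (e x).1) = ζ x := by
      rw [add_comm, hTadd, hge]
      show ζ^[(1 : ZMod p).val] x = ζ x
      rw [ZMod.val_one]
      rfl
    rw [← h1]
    exact he _ _

end Pool.Agent.W923.NL.QU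

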